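import Pool.Agent.LUB.Stmts

/-!
# Squad LUB (MP_5f2860_nt), row NOE: uniform domination of the coefficients
-/

set_option autoImplicit false

namespace Pool.Agent.LUB.H87

open Pool.Agent.LUB

theorem noe : NoeStmt := by
  intro p _ R _ _ g
  let f : ℕ →o Submodule R R :=
    { toFun := fun K => Ideal.span ((fun l => PowerSeries.coeff l g) '' {l | l ≤ K})
      monotone' := by
        intro a b hab
        apply Ideal.span_mono
        apply Set.image_mono
        intro l hl
        exact le_trans hl hab }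
  obtain ⟨K, hK⟩ := (monotone_stabilizes_iff_noetherian (R := R) (M := R)).2 inferInstance f
  refine ⟨K, fun φ k => ?_⟩
  obtain ⟨l, hl, hmax⟩ := Finset.exists_max_image (Finset.range (K + 1))
    (fun l => ‖φ (PowerSeries.coeff l g)‖) ⟨0, by simp⟩
  have key : ∀ x ∈ Ideal.span ((fun l => PowerSeries.coeff l g) '' {l | l ≤ K}),
      ‖φ x‖ ≤ ‖φ (PowerSeries.coeff l g)‖ := by
    intro x hx
    refine Submodule.span_induction (p := fun x _ => ‖φ x‖ ≤ ‖φ (PowerSeries.coeff l g)‖)
      ?_ ?_ ?_ ?_ hx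
    · rintro y ⟨j, hj, rfl⟩
      exact hmax j (Finset.mem_range.2 (Nat.lt_succ_of_le hj))
    · rw [map_zero, norm_zero]
      exact norm_nonneg _
    · intro a b _ _ ha hb
      rw [map_add]
      exact (PadicInt.nonarchimedean _ _).trans (max_le ha hb)
    · intro c a _ ha
      rw [smul_eq_mul, map_mul, norm_mul]
      calc ‖φ c‖ * ‖φ a‖ ≤ 1 * ‖φ a‖ :=
            mul_le_mul_of_nonneg_right (PadicInt.norm_le_one _) (norm_nonneg _)
        _ = ‖φ a‖ := one_mul _
        _ ≤ _ := ha
  refine ⟨l, Nat.lt_succ_iff.1 (Finset.mem_range.1 hl), key _ ?_⟩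
  have hk : PowerSeries.coeff k g ∈ f (max K k) :=
    Ideal.subset_span ⟨k, le_max_right K k, rfl⟩
  rw [← hK (max K k) (le_max_left K k)] at hk
  exact hk

end Pool.Agent.LUB.H87
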